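import Mathlib

namespace Pool.Agent.H.MP_27f8b5_an

open Filter Topology MonoidAlgebra

abbrev G := Equiv.Perm (Fin 3) × Multiplicative ℤ

noncomputable abbrev E := lp (fun _ : G => ℂ) 2

noncomputable def Li (g : G) : E →ₗᵢ[ℂ] E where
  toFun f := ⟨fun x => f (g⁻¹ * x), memℓp_gen
    ((Equiv.mulLeft g⁻¹).summable_iff.2 ((lp.memℓp f).summable (by norm_num)))⟩
  map_add' _ _ := rfl
  map_smul' _ _ := rfl
  norm_map' f := by
    rw [lp.norm_eq_tsum_rpow (by norm_num), lp.norm_eq_tsum_rpow (by norm_num)]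
    congr 1
    exact (Equiv.mulLeft g⁻¹).tsum_eq fun x => ‖f x‖ ^ (2 : ENNReal).toReal

noncomputable def π : G →* (E →L[ℂ] E) where
  toFun g := (Li g).toContinuousLinearMap
  map_one' := by
    ext f x
    exact congrArg f (by simp)
  map_mul' a b := by
    ext f x
    exact congrArg f (by simp [mul_assoc])

theorem π_apply (g : G) (f : E) (x : G) : π g f x = f (g⁻¹ * x) := rfl

theorem π_norm (g : G) (f : E) : ‖π g f‖ = ‖f‖ := (Li g).norm_map f

noncomputable def Λ : MonoidAlgebra ℂ G →ₐ[ℂ] (E →L[ℂ] E) := lift ℂ _ G π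

theorem Λ_apply (μ : MonoidAlgebra ℂ G) (f : E) (x : G) :
    Λ μ f x = μ.coeff.sum fun y c => c * f (y⁻¹ * x) := by
  rw [Λ, lift_apply, Finsupp.sum, Finsupp.sum, ContinuousLinearMap.sum_apply, lp.coeFn_sum,
    Finset.sum_apply]
  rfl

theorem Λ_single (g : G) : Λ (single g 1) = π g := by simp [Λ]

def s : G := (Equiv.swap 0 1, 1)

def t : G := (Equiv.swap 0 1 * Equiv.swap 1 2, 1)

def u : G := (1, Multiplicative.ofAdd 1)

noncomputable def β : MonoidAlgebra ℂ G := (1 + single s 1) * single t 1 * (1 - single s 1)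

theorem β2 : β * β = 0 := by
  have h : (1 - single s 1 : MonoidAlgebra ℂ G) * (1 + single s 1) = 0 := by
    have : s * s = 1 := by decide
    rw [sub_mul, mul_add, mul_add, single_mul_single, this, mul_one, mul_one, one_mul, mul_one,
      ← one_def, add_comm, sub_self]
  simp only [β, mul_assoc]
  rw [← mul_assoc (1 - single s 1), h, zero_mul, mul_zero, mul_zero]

theorem uβ : Commute (single u 1) β := by
  have h : ∀ g : G, Commute (single u (1 : ℂ)) (single g 1) := fun g => by
    rw [Commute, SemiconjBy, single_mul_single, single_mul_single]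
    congr 1
    ext <;> simp [u, mul_comm]
  exact (((Commute.one_right _).add_right (h s)).mul_right (h t)).mul_right
    ((Commute.one_right _).sub_right (h s))

theorem βu (k : ℕ) : β * single u 1 ^ k = single (t * u ^ k) 1 + single (s * t * u ^ k) 1 -
    (single (t * s * u ^ k) 1 + single (s * t * s * u ^ k) 1) := by
  simp only [β, single_pow, mul_sub, add_mul, sub_mul, one_mul, mul_one, single_mul_single, one_pow]

theorem pw {A : Type*} [Ring A] {a b : A} (h : Commute a b) (hb : b * b = 0) (n : ℕ) :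
    (a + b) ^ (n + 1) = a ^ (n + 1) + (n + 1) • (a ^ n * b) := by
  induction n with
  | zero => simp
  | succ n ih =>
    rw [pow_succ, ih, add_mul, mul_add, mul_add, smul_mul_assoc, smul_mul_assoc, mul_assoc,
      mul_assoc, hb, ← h.eq, ← mul_assoc, ← pow_succ, ← pow_succ, mul_zero, smul_zero, add_zero,
      add_smul (n + 1), one_smul]
    abel

theorem upow (k : ℕ) : u ^ k = (1, Multiplicative.ofAdd (k : ℤ)) := by
  simp [u, ← ofAdd_nsmul]

theorem inj (g : G) : Tendsto (fun k : ℕ => g * u ^ k) atTop cofinite := by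
  rw [← Nat.cofinite_eq_atTop]
  refine Function.Injective.tendsto_cofinite fun i j h => ?_
  simpa [upow] using h

theorem ev (j k : ℕ) :
    Λ (β * single u 1 ^ k) (lp.single 2 1 1) (t * u ^ j) = if k = j then 1 else 0 := by
  have h : ∀ g : G, (lp.single 2 1 1 : E) (g⁻¹ * (t * u ^ j)) = if g = t * u ^ j then 1 else 0 :=
    fun g => by simp [lp.single_apply, Pi.single_apply, inv_mul_eq_one]
  have h2 : ∀ g : G, g.1 ≠ t.1 → ¬ g * u ^ k = t * u ^ j := fun g hg e =>
    hg (by simpa [upow] using congrArg Prod.fst e)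
  rw [βu]
  simp only [map_sub, map_add, Λ_single, sub_apply,
    add_apply, lp.coeFn_sub, lp.coeFn_add, Pi.sub_apply, Pi.add_apply, π_apply,
    h, h2 (s * t) (by decide), h2 (t * s) (by decide), h2 (s * t * s) (by decide), if_false]
  simp [upow]

theorem ev0 (j k : ℕ) : Λ (single u 1 ^ k) (lp.single 2 1 1) (t * u ^ j) = 0 := by
  rw [single_pow, one_pow, Λ_single, π_apply]
  refine lp.single_apply_ne _ _ _ fun e => ?_
  have h : t.1 ≠ 1 := by decide
  exact h (by simpa [upow] using congrArg Prod.fst e)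

end Pool.Agent.H.MP_27f8b5_an
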